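import Pool.Agent.N848.OL.Stm
import Pool.Agent.Y447.LC.RAM

/-!
# OL/RMP: base change of unramified primes (helper135 for helper848)
-/

set_option autoImplicit false

namespace Pool.Agent.N135.OL

open NumberField IsDedekindDomain Module Pool.Agent.N848.OL Pool.Agent.Y18.LC
open Pool.Agent.N848.LT (Ab)

/-- the isomorphism of a field with its image -/
noncomputable def eqv {F K : Type} [Field F] [NumberField F] [Field K] [NumberField K]
    (φ : F →ₐ[ℚ] K) : F ≃ₐ[ℚ] φ.fieldRange :=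
  AlgEquiv.ofBijective (φ.codRestrict φ.fieldRange.toSubalgebra (fun x => ⟨x, rfl⟩))
    ⟨fun x y h => φ.injective (congrArg Subtype.val h), fun y => by
      obtain ⟨x, hx⟩ := y.2
      exact ⟨x, Subtype.ext hx⟩⟩

theorem unram_of_equiv {R S : Type} [CommRing R] [CommRing S] (e : R ≃+* S) (q : ℕ)
    (h : (Ideal.span {(q : R)}).IsRadical) : (Ideal.span {(q : S)}).IsRadical := by
  intro x hx
  obtain ⟨n, hn⟩ := hx
  rw [Ideal.mem_span_singleton] at hn ⊢
  have h1 : (q : R) ∣ (e.symm x) ^ n := by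
    have := map_dvd e.symm hn
    rwa [map_natCast, map_pow] at this
  have h2 : e.symm x ∈ Ideal.span {(q : R)} := h ⟨n, Ideal.mem_span_singleton.2 h1⟩
  rw [Ideal.mem_span_singleton] at h2
  have h3 := map_dvd e h2
  rwa [map_natCast, RingEquiv.apply_symm_apply] at h3

theorem t_RMP : S_RMP := by
  intro F' K K' _ _ _ _ _ _ _ _ hG hadj q hq hun v hv
  obtain ⟨φ, hφ⟩ : ∃ φ : F' →ₐ[ℚ] K', ∀ x, φ x = algebraMap F' K' x :=
    ⟨(algebraMap F' K').toRatAlgHom, fun x => rfl⟩
  have hun2 : Unram φ.fieldRange q :=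
    unram_of_equiv (RingOfIntegers.mapRingEquiv (eqv φ).toRingEquiv) q hun
  obtain ⟨w, hw⟩ := Pool.Agent.Y447.LC.ram K K' φ.fieldRange (IsGalois.of_algEquiv (eqv φ))
    (by
      rw [← hadj]
      congr 1
      ext x
      constructor
      · rintro ⟨y, hy⟩
        exact ⟨y, (hφ y).symm.trans hy⟩
      · rintro ⟨y, hy⟩
        exact ⟨y, (hφ y).trans hy⟩) q hq hun2 v hv
  refine ⟨w, ?_, hw⟩
  show w.asIdeal.comap (algebraMap (𝓞 K) (𝓞 K')) = v.asIdeal
  ext x
  rw [Ideal.mem_comap, ← HeightOneSpectrum.valuation_lt_one_iff_mem (K := K') w,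
    ← HeightOneSpectrum.valuation_lt_one_iff_mem (K := K) v, ← hw]
  exact Iff.rfl

end Pool.Agent.N135.OL
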